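import Pool.Agent.P8H40.CY.Stm

set_option autoImplicit false

/-!
# Project CY: package CAY
-/

namespace Pool.Agent.P8H52.CY

open Pool.Agent.P8H40.CY Matrix

/-- package CAY -/
theorem cay : S_CAY := by
  intro n J g hJ hdet hg hA
  have hAu : IsUnit (g + 1).det := Ne.isUnit hA
  have hJu : IsUnit J.det := Ne.isUnit hdet
  obtain ⟨A, hAdef⟩ : ∃ A, A = g + 1 := ⟨_, rfl⟩
  rw [← hAdef] at hA hAu
  have hAi : A * A⁻¹ = 1 := mul_nonsing_inv _ hAu
  have hAi' : A⁻¹ * A = 1 := nonsing_inv_mul _ hAu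
  have hJi : J⁻¹ * J = 1 := nonsing_inv_mul _ hJu
  have hJS : J⁻¹ * (J * (g - 1) * A⁻¹) = (g - 1) * A⁻¹ := by
    rw [Matrix.mul_assoc J, ← Matrix.mul_assoc J⁻¹, hJi, Matrix.one_mul]
  have h1 : 1 - (g - 1) * A⁻¹ = (2 : ℂ) • A⁻¹ := by
    have e1 : (1 : Matrix (Fin n) (Fin n) ℂ) = A * A⁻¹ := hAi.symm
    calc 1 - (g - 1) * A⁻¹ = A * A⁻¹ - (g - 1) * A⁻¹ := by rw [hAi]
      _ = (A - (g - 1)) * A⁻¹ := by rw [← Matrix.sub_mul]
      _ = ((2 : ℂ) • 1) * A⁻¹ := by
        congr 1
        rw [hAdef, two_smul]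
        abel
      _ = _ := by rw [Matrix.smul_mul, Matrix.one_mul]
  have h2 : 1 + (g - 1) * A⁻¹ = g * ((2 : ℂ) • A⁻¹) := by
    calc 1 + (g - 1) * A⁻¹ = A * A⁻¹ + (g - 1) * A⁻¹ := by rw [hAi]
      _ = (A + (g - 1)) * A⁻¹ := by rw [← Matrix.add_mul]
      _ = ((2 : ℂ) • g) * A⁻¹ := by
        congr 1
        rw [hAdef, two_smul]
        abel
      _ = _ := by rw [Matrix.smul_mul, Matrix.mul_smul]
  refine ⟨J * (g - 1) * A⁻¹, ?_, ?_, ?_⟩
  · -- symmetric
    have h3 : A.transpose * (J * (g - 1)) = J * g - g.transpose * J := by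
      rw [hAdef, transpose_add, transpose_one, Matrix.add_mul, Matrix.one_mul, Matrix.mul_sub, Matrix.mul_one,
        Matrix.mul_sub, ← Matrix.mul_assoc, hg]
      abel
    have h4 : (J * g - g.transpose * J).transpose = J * g - g.transpose * J := by
      rw [transpose_sub, transpose_mul, transpose_mul, transpose_transpose, hJ, Matrix.mul_neg,
        Matrix.neg_mul]
      abel
    have h5 : A.transpose * (J * (g - 1) * A⁻¹) * A = J * g - g.transpose * J := by
      rw [Matrix.mul_assoc, Matrix.mul_assoc (J * (g - 1)), hAi', Matrix.mul_one, h3]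
    have h6 : A.transpose * (J * (g - 1) * A⁻¹).transpose * A = J * g - g.transpose * J := by
      have h7 := congrArg Matrix.transpose h5
      rw [h4, transpose_mul, transpose_mul, transpose_transpose, ← Matrix.mul_assoc] at h7
      exact h7
    have h8 : A.transpose * (J * (g - 1) * A⁻¹).transpose * A = A.transpose * (J * (g - 1) * A⁻¹) * A :=
      h6.trans h5.symm
    have h9 : A.transpose * (J * (g - 1) * A⁻¹).transpose = A.transpose * (J * (g - 1) * A⁻¹) := by
      have := congrArg (· * A⁻¹) h8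
      simp only [Matrix.mul_assoc, hAi, Matrix.mul_one] at this
      simpa only [Matrix.mul_assoc] using this
    have hAt : IsUnit A.transpose.det := by rw [det_transpose]; exact hAu
    have h10 := congrArg (A.transpose⁻¹ * ·) h9
    simp only [← Matrix.mul_assoc, nonsing_inv_mul _ hAt, Matrix.one_mul] at h10
    simpa only [Matrix.mul_assoc] using h10
  · rw [hJS, h1, det_smul]
    refine mul_ne_zero (pow_ne_zero _ two_ne_zero) ?_
    have h11 : A⁻¹.det * A.det = 1 := by rw [← det_mul, hAi', det_one]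
    intro h
    rw [h, zero_mul] at h11
    exact zero_ne_one h11
  · rw [hJS, h1, h2]

end Pool.Agent.P8H52.CY
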