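import Pool.Agent.P8H40.CY.Stm
import Pool.Agent.W948.ZC.TR

set_option autoImplicit false

/-!
# Project CY: package DEN
-/

namespace Pool.Agent.P8H52.CY

open Pool.Agent.P8H40.CY Matrix

section

variable {n : ℕ} {J : Matrix (Fin n) (Fin n) ℂ}

/-- the transvection -/
noncomputable def tv (J : Matrix (Fin n) (Fin n) ℂ) (u : Fin n → ℂ) (c : ℂ) : Matrix (Fin n) (Fin n) ℂ :=
  1 + c • vecMulVec u (u ᵥ* J)

theorem tv_mulVec (u x : Fin n → ℂ) (c : ℂ) :
    tv J u c *ᵥ x = x + (c * (u ⬝ᵥ J *ᵥ x)) • u := by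
  unfold tv
  rw [add_mulVec, one_mulVec, smul_mulVec, vecMulVec_mulVec, dotProduct_mulVec]
  congr 1
  ext i
  simp
  ring

theorem skew_self (hJ : J.transpose = -J) (u : Fin n → ℂ) : u ⬝ᵥ J *ᵥ u = 0 := by
  have h1 : u ⬝ᵥ J *ᵥ u = u ⬝ᵥ J.transpose *ᵥ u := by
    rw [dotProduct_mulVec, mulVec_transpose, dotProduct_comm]
  rw [hJ, neg_mulVec, dotProduct_neg] at h1
  have h2 : (2 : ℂ) * (u ⬝ᵥ J *ᵥ u) = 0 := by linear_combination h1
  exact (mul_eq_zero.1 h2).resolve_left two_ne_zero

theorem tv_sp (hJ : J.transpose = -J) (u : Fin n → ℂ) (c : ℂ) :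
    (tv J u c).transpose * J * tv J u c = J := by
  have h1 : J *ᵥ u = -(u ᵥ* J) := by
    rw [← vecMul_transpose, hJ, vecMul_neg]
  have h2 : (u ᵥ* J) ⬝ᵥ u = 0 := by rw [← dotProduct_mulVec]; exact skew_self hJ u
  unfold tv
  rw [transpose_add, transpose_one, transpose_smul, transpose_vecMulVec, Matrix.add_mul, Matrix.one_mul,
    Matrix.smul_mul, vecMulVec_mul, Matrix.mul_add, Matrix.mul_one, Matrix.mul_smul, Matrix.add_mul,
    mul_vecMulVec, h1, Matrix.smul_mul, vecMulVec_mul_vecMulVec, h2]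
  rw [neg_vecMulVec]
  simp

/-- the elements which are connected with the identity by a polynomial path -/
def PS (J : Matrix (Fin n) (Fin n) ℂ) : Submonoid (Matrix (Fin n) (Fin n) ℂ) where
  carrier := {g | ∃ P : Matrix (Fin n) (Fin n) (Polynomial ℂ),
    (Polynomial.evalRingHom (0 : ℂ)).mapMatrix P = 1 ∧
    (∀ s : ℂ, ((Polynomial.evalRingHom s).mapMatrix P).transpose * J *
      (Polynomial.evalRingHom s).mapMatrix P = J) ∧
    (Polynomial.evalRingHom (1 : ℂ)).mapMatrix P = g}
  one_mem' := ⟨1, by rw [map_one], fun s => by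
    rw [map_one, transpose_one, Matrix.one_mul, Matrix.mul_one], by rw [map_one]⟩
  mul_mem' := by
    rintro a b ⟨P, h1, h2, h3⟩ ⟨Q, h4, h5, h6⟩
    refine ⟨P * Q, by rw [map_mul, h1, h4, Matrix.one_mul], fun s => ?_, by rw [map_mul, h3, h6]⟩
    rw [map_mul, transpose_mul]
    calc ((Polynomial.evalRingHom s).mapMatrix Q).transpose *
          ((Polynomial.evalRingHom s).mapMatrix P).transpose * J *
          ((Polynomial.evalRingHom s).mapMatrix P * (Polynomial.evalRingHom s).mapMatrix Q)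
        = ((Polynomial.evalRingHom s).mapMatrix Q).transpose *
          (((Polynomial.evalRingHom s).mapMatrix P).transpose * J *
          (Polynomial.evalRingHom s).mapMatrix P) * (Polynomial.evalRingHom s).mapMatrix Q := by
          simp only [Matrix.mul_assoc]
      _ = J := by rw [h2, h5]

theorem tv_mem (hJ : J.transpose = -J) (u : Fin n → ℂ) (c : ℂ) : tv J u c ∈ PS J := by
  have hP : ∀ s : ℂ, (Polynomial.evalRingHom s).mapMatrix
      (1 + (Polynomial.X * Polynomial.C c) • (Matrix.of fun i j => Polynomial.C (u i * (u ᵥ* J) j)) :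
        Matrix (Fin n) (Fin n) (Polynomial ℂ)) = tv J u (s * c) := by
    intro s
    unfold tv
    ext i j
    rw [map_add, map_one]
    simp [vecMulVec_apply]
    left
    ring
  refine ⟨(1 + (Polynomial.X * Polynomial.C c) • (Matrix.of fun i j => Polynomial.C (u i * (u ᵥ* J) j)) :
        Matrix (Fin n) (Fin n) (Polynomial ℂ)), ?_, ?_, ?_⟩
  · rw [hP, zero_mul]
    unfold tv
    rw [zero_smul, add_zero]
  · intro s
    rw [hP]
    exact tv_sp hJ u _
  · rw [hP, one_mul]

theorem sp_all (hJ : J.transpose = -J) (hdet : J.det ≠ 0) (g : Matrix (Fin n) (Fin n) ℂ)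
    (hg : g.transpose * J * g = J) : g ∈ PS J := by
  set ω : (Fin n → ℂ) →ₗ[ℂ] (Fin n → ℂ) →ₗ[ℂ] ℂ := Matrix.toLinearMap₂' ℂ J with hω
  have hωa : ∀ u v, ω u v = u ⬝ᵥ J *ᵥ v := by
    intro u v
    rw [hω, Matrix.toLinearMap₂'_apply']
  have h0 : ∀ v, ω v v = 0 := fun v => by rw [hωa, skew_self hJ]
  have hnd : ∀ u, (∀ v, ω u v = 0) → u = 0 := by
    intro u hu
    have h1 : ∀ w : Fin n → ℂ, u ⬝ᵥ w = 0 := by
      intro w
      have h2 := hu (J⁻¹ *ᵥ w)
      rw [hωa] at h2
      rw [mulVec_mulVec, mul_nonsing_inv _ (Ne.isUnit hdet), one_mulVec] at h2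
      exact h2
    funext i
    have := h1 (Pi.single i 1)
    rwa [dotProduct_single_one] at this
  have hpres : ∀ u v, ω (Matrix.toLin' g u) (Matrix.toLin' g v) = ω u v := by
    intro u v
    rw [hωa, hωa, toLin'_apply, toLin'_apply]
    rw [mulVec_mulVec, ← vecMul_transpose, ← dotProduct_mulVec, mulVec_mulVec, ← Matrix.mul_assoc, hg]
  have hmem := Pool.Agent.W948.ZC.TR.aux ℂ _ (Fin n → ℂ) ω rfl h0 hnd (Matrix.toLin' g) hpres
  have key : ∀ T ∈ Pool.Agent.W948.ZC.TR.G ω, LinearMap.toMatrix' T ∈ PS J := by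
    intro T hT
    unfold Pool.Agent.W948.ZC.TR.G at hT
    induction hT using Submonoid.closure_induction with
    | mem T h =>
      obtain ⟨c, u, rfl⟩ := h
      have h1 : LinearMap.toMatrix' (1 + c • (ω u).smulRight u) = tv J u c := by
        apply (Matrix.toLin'.injective)
        rw [toLin'_toMatrix']
        ext x i
        have h2 : (Matrix.toLin' (tv J u c)) (Pi.single x 1) = tv J u c *ᵥ (Pi.single x 1) := rfl
        rw [LinearMap.comp_apply, LinearMap.comp_apply, LinearMap.single_apply, h2, tv_mulVec, ← hωa]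
        simp [LinearMap.add_apply, mul_assoc]
      rw [h1]
      exact tv_mem hJ u c
    | one =>
      have : LinearMap.toMatrix' (1 : Module.End ℂ (Fin n → ℂ)) = 1 := LinearMap.toMatrix'_id
      rw [this]
      exact one_mem _
    | mul A B _ _ hA hB =>
      have : LinearMap.toMatrix' (A * B) = LinearMap.toMatrix' A * LinearMap.toMatrix' B :=
        LinearMap.toMatrix'_mul A B
      rw [this]
      exact mul_mem hA hB
  have := key _ hmem
  rwa [LinearMap.toMatrix'_toLin'] at this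

end

/-- package DEN -/
theorem den : S_DEN := by
  intro n J f hJ hdet hf g hg
  obtain ⟨P, h0, hs, h1⟩ := sp_all hJ hdet g hg
  obtain ⟨F1, hF1⟩ : ∃ F1 : Polynomial ℂ, F1 = MvPolynomial.aeval (fun p : Fin n × Fin n => P p.1 p.2) f :=
    ⟨_, rfl⟩
  have e1 : ∀ s : ℂ, Polynomial.eval s F1 =
      MvPolynomial.eval (fun p : Fin n × Fin n => ((Polynomial.evalRingHom s).mapMatrix P) p.1 p.2) f := by
    intro s
    rw [hF1, ← Polynomial.coe_evalRingHom, MvPolynomial.map_aeval]
    have h1 : (Polynomial.evalRingHom s).comp (algebraMap ℂ (Polynomial ℂ)) = RingHom.id ℂ := by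
      ext x
      simp
    rw [h1]
    rfl
  have e2 : ∀ s : ℂ, Polynomial.eval s (P + 1).det = ((Polynomial.evalRingHom s).mapMatrix P + 1).det := by
    intro s
    rw [← Polynomial.coe_evalRingHom, RingHom.map_det, map_add, map_one]
  have h2 : F1 * (P + 1).det = 0 := by
    apply Polynomial.funext
    intro s
    rw [Polynomial.eval_mul, Polynomial.eval_zero, e1, e2]
    by_cases hd : ((Polynomial.evalRingHom s).mapMatrix P + 1).det = 0
    · rw [hd, mul_zero]
    · rw [hf _ (hs s) hd, zero_mul]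
  have h3 : (P + 1).det ≠ 0 := by
    intro h
    have h4 := e2 0
    rw [h, Polynomial.eval_zero, h0] at h4
    have h5 : (1 + 1 : Matrix (Fin n) (Fin n) ℂ) = (2 : ℂ) • 1 := by rw [two_smul]
    rw [h5, det_smul, det_one, mul_one] at h4
    exact pow_ne_zero _ two_ne_zero h4.symm
  have h6 : F1 = 0 := (mul_eq_zero.1 h2).resolve_right h3
  have h7 := e1 1
  rw [h6, Polynomial.eval_zero, h1] at h7
  exact h7.symm

end Pool.Agent.P8H52.CY
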